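import Pool.Agent.K1H19.Kom.Run

/-!
# The budget of a row
-/

namespace K19Kom

open Finset Real H167BJ H167BK H167KL

theorem t_BUD : S_BUD := by
  intro d n C T D i hi
  have hl : D.l0 i ≤ C.L + 1 := (D.hl0L i hi).trans (Nat.le_succ _)
  have h1 : D.sys.Bd D.sys.L i
      = ∑ k ∈ Finset.Ico (D.l0 i) (C.L + 1), (4 * dk 1 (D.hh i) k + rk 1 (D.hh i) k) := by
    have h2 : D.sys.Bd D.sys.L i
        = ∑ k ∈ range (C.L + 1), (4 * dk 1 (D.hh i) k + rk 1 (D.hh i) k)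
          - ∑ k ∈ range (D.l0 i), (4 * dk 1 (D.hh i) k + rk 1 (D.hh i) k) := rfl
    rw [h2, ← Finset.sum_range_add_sum_Ico _ hl]
    ring
  rw [h1]
  refine (tail_cost (t := 1) le_rfl (D.hh_ge i) _ _ hl).trans (le_of_eq ?_)
  unfold bd Dat.hh
  rw [Real.sqrt_one, mul_one]

end K19Kom
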