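import Pool.Agent.K1H19.Kom.Process
import Pool.Agent.K1H24.Kom_ACC1
import Pool.Agent.K1H30.Kom.Acc2
import Pool.Agent.K1H58.Kom_VTX
import Pool.Agent.K1H61.Kom_MM
import Pool.Agent.K1H96.Kom.Kom_WHIT
import Pool.Agent.K1H37.KR.Kom_GOOD

/-!
# Random signings with quartic type tails
-/

namespace K19Kom

theorem final : S_FINAL :=
  assembly t_WHIT (proc_of t_WHIT t_GOOD Pool.Agent.K1H58.Kom.t_RND Pool.Agent.K1H58.Kom.t_VTX)
    Pool.Agent.K1H24.Kom.t_ACC1 Pool.Agent.K1H30.KomA.t_ACC2 t_MM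

end K19Kom
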