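import Pool.Agent.K1H19.Kom.Trans

/-!
# The process
-/

namespace K19Kom

open Finset Real H167BJ H167BK H167KL

variable {d n : ℕ} {C : Ctx d n} {T : ℕ}

/-- Row sum relative to the initial point. -/
noncomputable def tot (C : Ctx d n) (i : Fin d) (y : Fin n → ℝ) : ℝ :=
  ∑ j, C.a i j * (y j - C.x0 j)

theorem A_eq (D : Dat C T) (i : Fin d) (y : Fin n → ℝ)
    (h : ∀ j, |D.z (lv T i) j| = 1 → y j = D.z (lv T i) j) :
    D.sys.A i y = tot C i y - tot C i (D.z (lv T i)) := by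
  have h1 : D.sys.A i y = ∑ v, D.ar i v * (y v - D.z (lv T i) v) := rfl
  rw [h1]
  unfold tot
  rw [← Finset.sum_sub_distrib]
  refine Finset.sum_congr rfl fun v _ => ?_
  unfold Dat.ar
  by_cases h2 : |D.z (lv T i) v| < 1
  · rw [if_pos h2]; ring
  · have h3 : |D.z (lv T i) v| = 1 := le_antisymm (D.hz _ _) (not_lt.mp h2)
    rw [if_neg h2, h v h3]; ring

theorem bd_nonneg (p : ℕ) : 0 ≤ bd p := by unfold bd; positivity

theorem paid_nonneg (Rel : ℕ → ℕ → Finset (Fin d)) (i : Fin d) (T0 : ℕ) : 0 ≤ paid Rel i T0 := by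
  unfold paid
  refine Finset.sum_nonneg fun T _ => ?_
  have := bd_nonneg (lvl (scl i) T)
  split_ifs <;> positivity

theorem paid_step (Rel : ℕ → ℕ → Finset (Fin d)) (i : Fin d) (hi : T < scl i) :
    paid Rel i T = (if 2 ^ lv T i ∣ T + 1 then
      (if i ∈ Rel T (lv T i) then bd (lv T i) else bd (lv T i) / 2 ^ lv T i) else 0)
      + paid Rel i (T + 1) := by
  classical
  have h1 : lv T i = lvl (scl i) T := if_pos hi
  unfold paid
  rw [Finset.sum_filter, Finset.sum_filter, Finset.sum_eq_sum_Ico_succ_bot hi, h1]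

theorem paid_congr {Rel Rel' : ℕ → ℕ → Finset (Fin d)} (i : Fin d) {T0 : ℕ}
    (h : ∀ T, T0 ≤ T → ∀ p, Rel' T p = Rel T p) : paid Rel' i T0 = paid Rel i T0 := by
  classical
  unfold paid
  refine Finset.sum_congr rfl fun T hT => ?_
  have h1 : T0 ≤ T := (Finset.mem_Ico.mp (Finset.mem_filter.mp hT).1).1
  rw [h T h1]

/-- The state at the end of window `T`. -/
structure Stt (C : Ctx d n) (Rel : ℕ → ℕ → Finset (Fin d)) (T : ℕ) where
  D : Dat C T
  x : Fin n → ℝ
  inv : D.sys.Inv x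
  alv : ((H167FK.Sys.alive x).card : ℝ) ≤ 64 * 2 ^ T
  fz : ∀ q j, |D.z q j| = 1 → x j = D.z q j
  tot0 : ∀ i, scl i ≤ T → tot C i x = 0
  tot1 : ∀ i, T < scl i →
    |tot C i (D.z (lv T i))| + bd (lv T i) * (1 / 2) ^ D.l0 i ≤ paid Rel i T

theorem Stt.row {Rel : ℕ → ℕ → Finset (Fin d)} (S : Stt C Rel T) (i : Fin d) :
    |tot C i S.x| ≤ paid Rel i T := by
  by_cases hi : T < scl i
  · have h1 := A_eq S.D i S.x (S.fz _)
    have h2 : |S.D.sys.A i S.x| ≤ S.D.sys.Bd S.D.sys.L i + 4 * S.D.sys.g0 :=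
      S.inv.rows' (by
        show i ∈ Finset.univ.filter (fun i => T < scl i)
        simp [hi])
    have h3 : S.D.sys.g0 = 0 := rfl
    rw [h3] at h2
    have h4 := t_BUD d n C T S.D i hi
    have h5 := S.tot1 i hi
    have h6 : tot C i S.x = tot C i (S.D.z (lv T i)) + S.D.sys.A i S.x := by rw [h1]; ring
    rw [h6]
    refine (abs_add_le _ _).trans ?_
    linarith
  · rw [S.tot0 i (not_lt.mp hi), abs_zero]
    exact paid_nonneg _ _ _

theorem Sys.mem_R {I J T : Type*} [Fintype I] [Fintype J] (P : Sys I J T) {F F' : Finset J}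
    {i : I} : i ∈ P.R F F' ↔ i ∈ P.med F ∧ ∃ v ∈ F', P.am F i v ≠ 0 := by
  classical
  unfold Sys.R
  rw [Finset.mem_filter]

theorem Dat.mem_S (D : Dat C T) (q : ℕ) (v : Fin n) :
    (q, v) ∈ D.sys.S ↔ q < C.Pm ∧ |D.z q v| < 1 := by
  show (q, v) ∈ (Finset.range C.Pm ×ˢ Finset.univ).filter (fun τ => |D.z τ.1 τ.2| < 1) ↔ _
  rw [Finset.mem_filter, Finset.mem_product]
  simp

theorem Dat.seen (D : Dat C T) {F : Finset (Fin n)} (hF : ∀ v ∈ F, ∀ q, |D.z q v| < 1)
    {i : Fin d} (hi : i ∈ D.sys.R F F) : ∃ τ ∈ D.sys.S, 0 < D.sys.b τ i (D.sys.lev F i) := by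
  obtain ⟨hi1, v, hv, hv2⟩ := D.sys.mem_R.mp hi
  refine ⟨(lv T i, v), (D.mem_S _ _).mpr ⟨lv_lt C T i, hF v hv _⟩, ?_⟩
  rw [D.b_eq, if_pos rfl]
  have hθ := θk_pos (t := 1) le_rfl (D.hh_ge i) (D.sys.lev F i)
  have h1 : 0 < D.sys.sm (D.sys.lev F i) i v ^ 2 := by
    have : D.sys.sm (D.sys.lev F i) i v ≠ 0 := hv2
    positivity
  positivity

theorem frozen_card (d T : ℕ) :
    20 * ((Finset.univ.filter (fun i : Fin d => scl i ≤ T)).card : ℝ) ≤ 64 * 2 ^ T := by
  have h1 : (Finset.univ.filter (fun i : Fin d => scl i ≤ T)).card ≤ 2 ^ (T + 1) := by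
    have h2 : (Finset.univ.filter (fun i : Fin d => scl i ≤ T)).card
        ≤ (Finset.range (2 ^ (T + 1))).card := by
      apply Finset.card_le_card_of_injOn (fun i : Fin d => i.val)
      · intro i hi
        have h3 : scl i ≤ T := (Finset.mem_filter.mp hi).2
        have h4 : i.val + 1 < 2 ^ (T + 1) := by
          apply Nat.lt_pow_of_log_lt (by norm_num)
          unfold scl at h3
          omega
        simp only [Finset.coe_range, Set.mem_Iio]
        omega
      · intro i _ j _ hij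
        exact Fin.ext hij
    rwa [Finset.card_range] at h2
  have h2 : ((Finset.univ.filter (fun i : Fin d => scl i ≤ T)).card : ℝ) ≤ 2 ^ (T + 1) := by
    exact_mod_cast h1
  have h3 : (0 : ℝ) < 2 ^ T := by positivity
  rw [pow_succ] at h2
  linarith

theorem step_T (hW : S_WHIT) (hG : S_GOOD) {Rel : ℕ → ℕ → Finset (Fin d)}
    (S : Stt C Rel (T + 1)) :
    ∃ Rel' : ℕ → ℕ → Finset (Fin d), (∀ T' p, T' ≠ T → Rel' T' p = Rel T' p) ∧
      (∀ p, ((Rel' T p).card : ℝ) ≤ 64 * 2 ^ (T + 1) * 16 ^ p) ∧ Nonempty (Stt C Rel' T) := by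
  classical
  set x := S.x with hxdef
  have hx := S.inv.box
  set D' := nxt hW S.D x hx with hD'
  have hI : D'.sys.Inv x := inv_nxt hW S.D x S.inv S.alv
  have hz : ∀ q j, |D'.z q j| = 1 → x j = D'.z q j := by
    intro q j hj
    by_cases hq : 2 ^ q ∣ T + 1
    · rw [hD', nxt_z_fresh hW S.D x hx hq]
    · rw [hD', nxt_z_cont hW S.D x hx hq] at hj ⊢
      exact S.fz q j hj
  have hzF : ∀ v ∈ H167FK.Sys.alive x, ∀ q, |D'.z q v| < 1 := by
    intro v hv q
    refine lt_of_le_of_ne (D'.hz q v) fun h => ?_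
    rw [mem_alive, hz q v h, h] at hv
    exact lt_irrefl _ hv
  have hfro : 20 * (D'.sys.I0.card : ℝ) ≤ 64 * 2 ^ T := frozen_card d T
  obtain ⟨y, hy, hyx, hyc⟩ := D'.sys.run x hI rfl (64 * 2 ^ T) (by positivity) hfro
    (fun F w hF hc hw hf => hG d n C T D' F w hc (fun q v hv => hzF v (hF hv) q) hw hf)
    (fun F hF i hi => D'.seen (fun v hv q => hzF v (hF hv) q) hi)
  refine ⟨fun T' p => if T' = T then RelT C x p else Rel T' p, ?_, ?_, ⟨D', y, hy, hyc, ?_, ?_, ?_⟩⟩
  · intro T' p hT'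
    show (if T' = T then RelT C x p else Rel T' p) = Rel T' p
    rw [if_neg hT']
  · intro p
    show (((if T = T then RelT C x p else Rel T p)).card : ℝ) ≤ _
    rw [if_pos rfl]
    exact RelT_card C x p _ S.alv
  · intro q j hj
    have h1 := hz q j hj
    have h2 : |x j| = 1 := by rw [h1]; exact hj
    rw [hyx j h2, h1]
  · -- frozen rows
    intro i hi
    have h1 : D'.sys.A i y = 0 := hy.zero i (by
      show i ∈ Finset.univ.filter (fun i => scl i ≤ T)
      simp [hi])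
    have h2 : lv T i = 0 := lv_frozen (by omega)
    have h3 : D'.z (lv T i) = x := by
      rw [h2]
      exact nxt_z_fresh hW S.D x hx (by simp)
    rw [A_eq D' i y (by rw [h3]; exact hyx), h3] at h1
    have h4 := S.tot0 i (by omega)
    have h5 : tot C i x = 0 := h4
    linarith
  · -- active rows
    intro i hi
    rw [paid_step _ _ hi]
    have hpc : paid (fun T' p => if T' = T then RelT C x p else Rel T' p) i (T + 1)
        = paid Rel i (T + 1) := by
      apply paid_congr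
      intro T' hT' p
      show (if T' = T then RelT C x p else Rel T' p) = Rel T' p
      rw [if_neg (by omega)]
    rw [hpc]
    simp only [if_true]
    by_cases h : 2 ^ lv T i ∣ T + 1
    · rw [if_pos h]
      have h1 : D'.z (lv T i) = x := nxt_z_fresh hW S.D x hx h
      have h2 : D'.l0 i = if i ∈ RelT C x (lv T i) then 0 else lv T i := if_pos h
      have h3 := S.row i
      have h4 : |tot C i x| ≤ paid Rel i (T + 1) := h3
      rw [h1, h2]
      split_ifs
      · rw [pow_zero, mul_one]; linarith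
      · have h5 : bd (lv T i) * (1 / 2 : ℝ) ^ lv T i = bd (lv T i) / 2 ^ lv T i := by
          rw [one_div, inv_pow, div_eq_mul_inv]
        rw [h5]; linarith
    · rw [if_neg h, zero_add]
      obtain ⟨h1, h2⟩ := lv_cont hW hi h
      have h3 : D'.z (lv T i) = S.D.z (lv T i) := nxt_z_cont hW S.D x hx h
      have h4 : D'.l0 i = S.D.l0 i := if_neg h
      have h5 := S.tot1 i h1
      rw [h3, h4]
      rw [h2] at h5
      exact h5

theorem down (hW : S_WHIT) (hG : S_GOOD) (T : ℕ) :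
    (∃ Rel : ℕ → ℕ → Finset (Fin d), (∀ T' p, ((Rel T' p).card : ℝ) ≤ 64 * 2 ^ (T' + 1) * 16 ^ p) ∧
      Nonempty (Stt C Rel T)) →
    ∃ Rel : ℕ → ℕ → Finset (Fin d), (∀ T' p, ((Rel T' p).card : ℝ) ≤ 64 * 2 ^ (T' + 1) * 16 ^ p) ∧
      Nonempty (Stt C Rel 0) := by
  induction T with
  | zero => exact id
  | succ T ih =>
    rintro ⟨Rel, hR, ⟨S⟩⟩
    apply ih
    obtain ⟨Rel', h1, h2, h3⟩ := step_T hW hG S
    refine ⟨Rel', fun T' p => ?_, h3⟩
    by_cases h : T' = T
    · rw [h]; exact h2 p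
    · rw [h1 T' p h]; exact hR T' p

/-- The initial state. -/
theorem init (x : Fin n → ℝ) (hx : ∀ j, |x j| ≤ 1) (htot : ∀ i, tot C i x = 0)
    (hsc : ∀ i : Fin d, scl i ≤ T) (hal : ((H167FK.Sys.alive x).card : ℝ) ≤ 64 * 2 ^ T) :
    Nonempty (Stt C (fun _ _ => ∅) T) := by
  classical
  let D : Dat C T :=
    { z := fun _ => x
      hz := fun _ => hx
      xs := x
      l0 := fun _ => 0
      hl0 := fun i hi => absurd (hsc i) (by omega)
      hl0L := fun i hi => absurd (hsc i) (by omega) }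
  have hI1 : ∀ i, i ∉ D.sys.I1 := by
    intro i hi
    have h1 : T < scl i := (Finset.mem_filter.mp hi).2
    have := hsc i
    omega
  have hA : ∀ i, D.sys.A i x = 0 := by
    intro i
    have h1 : D.sys.x0 i = x := rfl
    unfold Sys.A
    rw [h1]; simp
  have hpot : D.sys.f (H167FK.Sys.alive x) x ≤ 2 * D.sys.N := by
    have hN : D.sys.N = 64 * 2 ^ (T + 1) := rfl
    have e1 : ∑ τ ∈ D.sys.S, D.sys.wt τ * exp (D.sys.Th (H167FK.Sys.alive x) τ x)
        = ∑ τ ∈ Finset.range C.Pm ×ˢ (Finset.univ : Finset (Fin n)),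
          (if |x τ.2| < 1 then
            rho T τ.1 * exp (D.sys.Th (H167FK.Sys.alive x) τ x) else 0) := by
      show ∑ τ ∈ (Finset.range C.Pm ×ˢ Finset.univ).filter (fun τ => |D.z τ.1 τ.2| < 1),
        rho T τ.1 * exp (D.sys.Th (H167FK.Sys.alive x) τ x) = _
      rw [Finset.sum_filter]
    have h1 : ∑ τ ∈ Finset.range C.Pm ×ˢ (Finset.univ : Finset (Fin n)),
          (if |x τ.2| < 1 then
            rho T τ.1 * exp (D.sys.Th (H167FK.Sys.alive x) τ x) else 0)
        ≤ ∑ τ ∈ Finset.range C.Pm ×ˢ (Finset.univ : Finset (Fin n)),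
          (if |x τ.2| < 1 then (1 / 2 : ℝ) ^ (τ.1 + 2) else 0) := by
      refine Finset.sum_le_sum fun τ _ => ?_
      have hTh : D.sys.Th (H167FK.Sys.alive x) τ x ≤ 0 := by
        unfold Sys.Th
        refine Finset.sum_nonpos fun i _ => Finset.sum_nonpos fun l _ => ?_
        exact mul_nonpos_of_nonneg_of_nonpos (b_nonneg _ _ _ _)
          (Sys.th_zero _ _ i l hx (hA i) (fun j hj => H167FK.Sys.abs_eq_one hx hj))
      have h2 : exp (D.sys.Th (H167FK.Sys.alive x) τ x) ≤ 1 := by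
        rw [Real.exp_le_one_iff]; exact hTh
      have h3 := rho_le T τ.1
      have h4 := rho_pos T τ.1
      split_ifs
      · nlinarith [exp_pos (D.sys.Th (H167FK.Sys.alive x) τ x)]
      · exact le_rfl
    have h2 := sum_alive x C.Pm
    have h3 := sum_one_sub x hx
    have h5 : D.sys.f (H167FK.Sys.alive x) x
        = ∑ τ ∈ D.sys.S, D.sys.wt τ * exp (D.sys.Th (H167FK.Sys.alive x) τ x)
          + ∑ j, (1 - x j ^ 2) := rfl
    have h6 : (0 : ℝ) < 2 ^ T := by positivity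
    rw [h5, e1, hN, pow_succ]
    linarith
  refine ⟨⟨D, x, ⟨hx, fun j _ => rfl, fun i _ => hA i, fun i _ => hA i, fun i hi => ?_,
    fun i hi => absurd hi (hI1 i), hpot⟩, hal, fun q j _ => rfl, fun i _ => htot i,
    fun i hi => absurd (hsc i) (by omega)⟩⟩
  exact absurd (Sys.mem_med _ |>.mp hi).1 (hI1 i)

theorem exists_ctx (d n : ℕ) (a : Fin d → Fin n → ℝ) (x0 : Fin n → ℝ)
    (col : ∀ j, ∑ i, a i j ^ 2 ≤ 1) : ∃ C : Ctx d n, C.a = a ∧ C.x0 = x0 := by
  classical
  have hh30 : ∀ q, 30 ≤ hp q := fun q => by linarith [hp_ge q]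
  have h1 : ∀ (q : ℕ) (i : Fin d) (v : Fin n), ∃ L : ℕ, a i v ≠ 0 → θk 1 (hp q) L < |a i v| := by
    intro q i v
    by_cases h : a i v = 0
    · exact ⟨0, fun h' => absurd h h'⟩
    · have h2 : 0 < |a i v| := abs_pos.mpr h
      obtain ⟨m, hm⟩ := θk_tendsto (t := 1) le_rfl (hh30 q) _ h2
      exact ⟨m, fun _ => hm⟩
  choose Lf hLf using h1
  set Pm : ℕ := Nat.log 2 d + 1 with hPm
  refine ⟨{ a := a, col := col, x0 := x0, Pm := Pm,
            L := ∑ q ∈ range Pm, ∑ i, ∑ v, Lf q i v + Pm, hPL := by omega, hsc := ?_,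
            hPm := by omega, hL := ?_ }, rfl, rfl⟩
  · intro i
    unfold scl
    have : Nat.log 2 (i.val + 1) ≤ Nat.log 2 d := Nat.log_mono_right (by omega)
    omega
  · intro i v q hq h
    refine lt_of_le_of_lt (θk_anti (t := 1) le_rfl (hh30 q) ?_) (hLf q i v h)
    have h2 := Finset.single_le_sum (f := fun v => Lf q i v) (fun i _ => Nat.zero_le _)
      (Finset.mem_univ v)
    have h3 := Finset.single_le_sum (f := fun i => ∑ v, Lf q i v) (fun i _ => Nat.zero_le _)
      (Finset.mem_univ i)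
    have h4 := Finset.single_le_sum (f := fun q => ∑ i, ∑ v, Lf q i v) (fun i _ => Nat.zero_le _)
      (Finset.mem_range.mpr hq)
    omega

theorem proc_of (hW : S_WHIT) (hG : S_GOOD) (hR : S_RND) (hV : S_VTX) : S_PROC := by
  intro d n a x0 col hx0
  obtain ⟨C, hCa, hCx⟩ := exists_ctx d n a x0 col
  obtain ⟨x, hx1, hx2, hx3⟩ := hV d n a x0 hx0
  have hal : ((H167FK.Sys.alive x).card : ℝ) ≤ d := by
    have h1 : H167FK.Sys.alive x = Finset.univ.filter (fun j => |x j| < 1) := by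
      ext j
      rw [mem_alive]; simp
    rw [h1]
    exact_mod_cast hx3
  have hd : (d : ℝ) ≤ 64 * 2 ^ (Nat.log 2 d) := by
    have h1 : d < 2 ^ (Nat.log 2 d + 1) := Nat.lt_pow_succ_log_self (by norm_num) d
    have h2 : (d : ℝ) < 2 ^ (Nat.log 2 d + 1) := by exact_mod_cast h1
    have h3 : (0 : ℝ) < 2 ^ Nat.log 2 d := by positivity
    rw [pow_succ] at h2
    linarith
  have hinit := init (C := C) (T := Nat.log 2 d) x hx1
    (fun i => by
      unfold tot
      rw [hCa, hCx]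
      exact hx2 i)
    (fun i => by
      unfold scl
      exact Nat.log_mono_right (by omega))
    (hal.trans hd)
  obtain ⟨Rel, hRel, ⟨S⟩⟩ := down hW hG (Nat.log 2 d)
    ⟨fun _ _ => ∅, fun T' p => by simp only [Finset.card_empty, Nat.cast_zero]; positivity, hinit⟩
  have h0 : ((Finset.univ.filter (fun j => |S.x j| < 1)).card : ℝ) ≤ 64 := by
    have h1 : H167FK.Sys.alive S.x = Finset.univ.filter (fun j => |S.x j| < 1) := by
      ext j
      rw [mem_alive]; simp
    have h2 := S.alv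
    rw [h1] at h2
    simpa using h2
  obtain ⟨y, hy1, hy2⟩ := hR d n a S.x col S.inv.box h0
  refine ⟨y, Rel, hy1, hRel, fun i => ?_⟩
  have h1 : ∑ j, a i j * (y j - x0 j) = tot C i S.x + ∑ j, a i j * (y j - S.x j) := by
    unfold tot
    rw [hCa, hCx, ← Finset.sum_add_distrib]
    exact Finset.sum_congr rfl fun j _ => by ring
  rw [h1]
  have h2 := S.row i
  have h3 := hy2 i
  exact (abs_add_le _ _).trans (by linarith)

end K19Kom
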