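import Pool.Agent.K1H19.Kom.Bud

/-!
# Two systems that agree on a row
-/

namespace K19Kom

open Finset Real H167BJ H167BK H167KL

variable {I J T : Type*} [Fintype I] [Fintype J]

/-- The data of the row `i` agree. -/
structure RowEq (P P' : Sys I J T) (i : I) : Prop where
  a : P'.a i = P.a i
  x0 : P'.x0 i = P.x0 i
  θ : P'.θ i = P.θ i
  D : P'.D i = P.D i
  Yl : P'.Yl i = P.Yl i
  lam : P'.lam i = P.lam i
  Rb : P'.Rb i = P.Rb i
  w : P'.w i = P.w i
  g : P'.g = P.g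
  l0 : P'.l0 i = P.l0 i
  L : P'.L = P.L
  t : P'.t = P.t
  g0 : P'.g0 = P.g0
  I1 : i ∈ P'.I1 ↔ i ∈ P.I1

namespace RowEq

variable {P P' : Sys I J T} {i : I} (h : RowEq P P' i)

include h

theorem e (k : ℕ) : P'.e k = P.e k := by unfold Sys.e; rw [h.t]

theorem sm (k : ℕ) (v : J) : P'.sm k i v = P.sm k i v := by
  unfold Sys.sm; rw [h.a, h.θ]

theorem mass (F : Finset J) : P'.mass F i = P.mass F i := by
  unfold Sys.mass; rw [h.a]

theorem En (F : Finset J) : P'.En F i = P.En F i := by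
  unfold Sys.En; rw [h.a]

theorem Es (k : ℕ) (F : Finset J) : P'.Es k F i = P.Es k F i := by
  unfold Sys.Es; simp only [h.sm]

theorem dr (k : ℕ) (F : Finset J) : P'.dr k F i = P.dr k F i := by
  unfold Sys.dr; simp only [h.sm, h.a]

theorem Reach (F : Finset J) (k : ℕ) : P'.Reach F i k ↔ P.Reach F i k := by
  unfold Sys.Reach; simp only [h.Es, h.e]

theorem lev (F : Finset J) : P'.lev F i = P.lev F i := by
  apply le_antisymm
  · exact P.le_lev (by rw [← h.L]; exact P'.lev_le_L F i)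
      ((h.Reach F _).mp (P'.reach_lev F i))
  · exact P'.le_lev (by rw [h.L]; exact P.lev_le_L F i)
      ((h.Reach F _).mpr (P.reach_lev F i))

theorem big (F : Finset J) : i ∈ P'.big F ↔ i ∈ P.big F := by
  rw [P'.mem_big, P.mem_big, h.mass, h.En, h.e, h.I1, h.g0]

theorem med (F : Finset J) : i ∈ P'.med F ↔ i ∈ P.med F := by
  rw [P'.mem_med, P.mem_med, h.mass, h.En, h.e, h.I1, h.g0, h.lev, h.L]

theorem Tp (k : ℕ) : P'.Tp i k = P.Tp i k := by
  unfold Sys.Tp; rw [h.D, h.Rb]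

theorem Bd (k : ℕ) : P'.Bd k i = P.Bd k i := by
  unfold Sys.Bd; rw [h.Tp, h.Tp, h.l0]

theorem A (y : J → ℝ) : P'.A i y = P.A i y := by
  unfold Sys.A; rw [h.a, h.x0]

theorem B (k : ℕ) (F : Finset J) (y : J → ℝ) : P'.B k F i y = P.B k F i y := by
  unfold Sys.B; simp only [h.A, h.sm, h.a, h.x0]

theorem Bq (F : Finset J) (y : J → ℝ) : P'.Bq F i y = P.Bq F i y := by
  unfold Sys.Bq; rw [h.A, h.a, h.x0]

theorem V (k : ℕ) (F : Finset J) (y : J → ℝ) : P'.V k F i y = P.V k F i y := by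
  unfold Sys.V; rw [h.B, h.dr]

theorem φ (k : ℕ) (F : Finset J) (y : J → ℝ) : P'.φ k F i y = P.φ k F i y := by
  unfold Sys.φ; simp only [h.B, h.dr, h.lam, h.Bd, h.Yl, h.sm]

theorem offc (F : Finset J) (l : ℕ) : P'.offc F i l = P.offc F i l := by
  unfold Sys.offc
  rw [h.w, h.g]
  by_cases hc : i ∈ P.big F ∨ (i ∈ P.med F ∧ P.lev F i < l)
  · rw [if_pos hc, if_pos (by rwa [h.big, h.med, h.lev])]
  · rw [if_neg hc, if_neg (by rwa [h.big, h.med, h.lev])]

theorem th (F : Finset J) (l : ℕ) (y : J → ℝ) : P'.th F i l y = P.th F i l y := by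
  unfold Sys.th
  rw [h.w, h.offc, h.φ]
  by_cases hc : i ∈ P.med F ∧ P.lev F i = l
  · rw [if_pos hc, if_pos (by rwa [h.med, h.lev])]
  · rw [if_neg hc, if_neg (by rwa [h.med, h.lev])]

end RowEq

namespace Sys

variable (P : Sys I J T)

/-- A row whose base point is the current point satisfies the row conditions. -/
theorem fresh_med {x : J → ℝ} (hx : ∀ j, |x j| ≤ 1) {i : I} (hA : P.A i x = 0)
    (hi : i ∈ P.med (H167FK.Sys.alive x)) :
    P.V (P.lev (H167FK.Sys.alive x) i) (H167FK.Sys.alive x) i x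
      ≤ P.Bd (P.lev (H167FK.Sys.alive x) i) i := by
  obtain ⟨hi1, hi2, hi3, hi4⟩ := P.mem_med.mp hi
  have h1 := P.reset_zero hx hA (P.En_le_l0 hi1 hi3) _ (P.l0_le_lev hi1 hi3) le_rfl
  have h2 := P.half_nonneg i (P.lev (H167FK.Sys.alive x) i)
  linarith

end Sys

end K19Kom
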