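import Mathlib

/-!
# Random signings with quartic type tails: interface of the elementary pieces
-/

namespace K19Kom

open Finset

/-- Parameter of level `p`. -/
noncomputable def hp (p : ℕ) : ℝ := 100 * ((p : ℝ) + 1) * Real.sqrt (2 ^ p)

/-- Cost of one block of level `p`. -/
noncomputable def bd (p : ℕ) : ℝ := 260 * Real.sqrt (hp p)

/-- Level of a row of scale `l` at time `T` (times run down from `l - 1` to `0`). -/
def lvl (l T : ℕ) : ℕ := Nat.findGreatest (fun p => (T / 2 ^ p + 2) * 2 ^ p ≤ l) l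

/-- Scale of the row number `i` (starting from `0`). -/
def scl {d : ℕ} (i : Fin d) : ℕ := Nat.log 2 (i.val + 1)

/-- The growth function. -/
noncomputable def Psi (c x : ℝ) : ℝ :=
  Real.exp (c * (x ^ 4 / (1 + Real.log (1 + |x|)) ^ 2))

/-- WHIT: properties of the level function. -/
def S_WHIT : Prop :=
  (∀ l T : ℕ, T < l → T + 2 ^ lvl l T ≤ l) ∧
  (∀ l T : ℕ, T < l → l < T + 4 * 2 ^ lvl l T) ∧
  (∀ l T p : ℕ, ¬ (2 ^ p ∣ T + 1) →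
    ((T < l ∧ lvl l T = p) ↔ (T + 1 < l ∧ lvl l (T + 1) = p)))

/-- The cost that a row has paid: one term for each block of times. -/
noncomputable def paid {d : ℕ} (Rel : ℕ → ℕ → Finset (Fin d)) (i : Fin d) (T0 : ℕ) : ℝ := by
  classical
  exact ∑ T ∈ (Finset.Ico T0 (scl i)).filter (fun T => 2 ^ lvl (scl i) T ∣ T + 1),
    (if i ∈ Rel T (lvl (scl i) T) then bd (lvl (scl i) T)
      else bd (lvl (scl i) T) / 2 ^ lvl (scl i) T)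

/-- PROC: the process. -/
def S_PROC : Prop :=
  ∀ (d n : ℕ) (a : Fin d → Fin n → ℝ) (x0 : Fin n → ℝ),
    (∀ j, ∑ i, a i j ^ 2 ≤ 1) → (∀ j, |x0 j| ≤ 1) →
    ∃ (y : Fin n → ℝ) (Rel : ℕ → ℕ → Finset (Fin d)),
      (∀ j, y j = 1 ∨ y j = -1) ∧
      (∀ T p, ((Rel T p).card : ℝ) ≤ 64 * 2 ^ (T + 1) * 16 ^ p) ∧
      ∀ i : Fin d, |∑ j, a i j * (y j - x0 j)| ≤ 128 + paid Rel i 0

/-- ACC1: a row with relevant levels at most `P` pays `O(bd P)`. -/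
def S_ACC1 : Prop := S_WHIT →
  ∃ C : ℝ, 0 < C ∧ ∀ (d : ℕ) (Rel : ℕ → ℕ → Finset (Fin d)) (i : Fin d) (P : ℕ),
    (∀ T < scl i, i ∈ Rel T (lvl (scl i) T) → lvl (scl i) T ≤ P) →
    128 + paid Rel i 0 ≤ C * bd P

/-- ACC2: the sum of the growth function over the first `m` rows. -/
def S_ACC2 : Prop := S_WHIT →
  ∀ C : ℝ, 0 < C → ∃ c K : ℝ, 0 < c ∧ 0 < K ∧
  ∀ (d : ℕ) (Rel : ℕ → ℕ → Finset (Fin d)) (x : Fin d → ℝ),
    (∀ T p, ((Rel T p).card : ℝ) ≤ 64 * 2 ^ (T + 1) * 16 ^ p) →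
    (∀ (i : Fin d) (P : ℕ),
      (∀ T < scl i, i ∈ Rel T (lvl (scl i) T) → lvl (scl i) T ≤ P) → |x i| ≤ C * bd P) →
    ∀ m : ℕ, m ≤ d → ∑ i ∈ Finset.univ.filter (fun i : Fin d => i.val < m), Psi c (x i) ≤ K * m

/-- Prefix form. -/
def PrefixForm (c K : ℝ) : Prop :=
  ∀ (d n : ℕ) (a : Fin d → Fin n → ℝ) (x0 : Fin n → ℝ),
    (∀ j, ∑ i, a i j ^ 2 ≤ 1) → (∀ j, |x0 j| ≤ 1) →
    ∃ y : Fin n → ℝ, (∀ j, y j = 1 ∨ y j = -1) ∧
      ∀ m : ℕ, m ≤ d → ∑ i ∈ Finset.univ.filter (fun i : Fin d => i.val < m),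
        Psi c (∑ j, a i j * (y j - x0 j)) ≤ K * m

/-- Random form. -/
def RandomForm (c K : ℝ) : Prop :=
  ∀ (d n : ℕ) (a : Fin d → Fin n → ℝ) (x0 : Fin n → ℝ),
    (∀ j, ∑ i, a i j ^ 2 ≤ 1) → (∀ j, |x0 j| ≤ 1) →
    ∃ w : (Fin n → Bool) → ℝ, (∀ s, 0 ≤ w s) ∧ ∑ s, w s = 1 ∧
      ∀ i : Fin d, ∑ s, w s * Psi c (∑ j, a i j * ((if s j then (1 : ℝ) else -1) - x0 j)) ≤ K

/-- MM: from prefixes to random signings (sorting, summation by parts, minimax). -/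
def S_MM : Prop := ∀ c K : ℝ, 0 < c → 0 < K → PrefixForm c K → RandomForm c K

/-- RND: rounding the last columns. -/
def S_RND : Prop := ∀ (d n : ℕ) (a : Fin d → Fin n → ℝ) (x : Fin n → ℝ),
  (∀ j, ∑ i, a i j ^ 2 ≤ 1) → (∀ j, |x j| ≤ 1) →
  ((Finset.univ.filter (fun j => |x j| < 1)).card : ℝ) ≤ 64 →
  ∃ y : Fin n → ℝ, (∀ j, y j = 1 ∨ y j = -1) ∧ ∀ i, |∑ j, a i j * (y j - x j)| ≤ 128

/-- VTX: at most `d` fractional coordinates. -/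
def S_VTX : Prop := ∀ (d n : ℕ) (a : Fin d → Fin n → ℝ) (x0 : Fin n → ℝ),
  (∀ j, |x0 j| ≤ 1) →
  ∃ x : Fin n → ℝ, (∀ j, |x j| ≤ 1) ∧ (∀ i, ∑ j, a i j * (x j - x0 j) = 0) ∧
    (Finset.univ.filter (fun j => |x j| < 1)).card ≤ d

/-- Final statement. -/
def S_FINAL : Prop := ∃ c K : ℝ, 0 < c ∧ 0 < K ∧ PrefixForm c K ∧ RandomForm c K

theorem assembly (h1 : S_WHIT) (h2 : S_PROC) (h3 : S_ACC1) (h4 : S_ACC2) (h5 : S_MM) :
    S_FINAL := by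
  obtain ⟨C, hC, hC1⟩ := h3 h1
  obtain ⟨c, K, hc, hK, h6⟩ := h4 h1 C hC
  have hP : PrefixForm c K := by
    intro d n a x0 ha hx0
    obtain ⟨y, Rel, hy, hR, hb⟩ := h2 d n a x0 ha hx0
    refine ⟨y, hy, h6 d Rel _ hR fun i P hP => ?_⟩
    exact (hb i).trans (hC1 d Rel i P hP)
  exact ⟨c, K, hc, hK, hP, h5 c K hc hK hP⟩

end K19Kom
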