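import Pool.Agent.K1H19.Kom.Proc
import Pool.Agent.K1H19.Kom.Stm

/-!
# Running a stage until few columns are alive, and the system of a window
-/

namespace K19Kom

open Finset Real H167BJ H167BK H167KL

namespace Sys

variable {I J T : Type*} [Fintype I] [Fintype J] (P : Sys I J T)

/-- What has to be checked in a step. -/
def Good (F : Finset J) (y : J → ℝ) : Prop :=
  100 * ∑ i ∈ P.R F F, P.W F y i / P.Yl i (P.lev F i) ≤ 2 * (F.card : ℝ) ∧
    ∀ Tt : Finset I, (∀ i ∈ Tt, i ∈ P.R F F ∧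
      P.V (P.lev F i) F i y = P.Bd (P.lev F i) i) → 20 * (Tt.card : ℝ) ≤ F.card

theorem run (x : J → ℝ) (hx : P.Inv x) (hxs : P.xs = x) (m : ℝ) (hm : 0 ≤ m)
    (hI0 : 20 * (P.I0.card : ℝ) ≤ m)
    (hgood : ∀ (F : Finset J) (y : J → ℝ), F ⊆ H167FK.Sys.alive x → m < F.card →
      (∀ j, |y j| ≤ 1) → P.f F y ≤ 2 * P.N → P.Good F y)
    (hW : ∀ F ⊆ H167FK.Sys.alive x, ∀ i ∈ P.R F F, ∃ τ ∈ P.S, 0 < P.b τ i (P.lev F i)) :
    ∃ y : J → ℝ, P.Inv y ∧ (∀ j, |x j| = 1 → y j = x j) ∧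
      ((H167FK.Sys.alive y).card : ℝ) ≤ m := by
  classical
  have hex : ∃ k : ℕ, ∃ y : J → ℝ, P.Inv y ∧ (H167FK.Sys.alive y).card = k := ⟨_, _, hx, rfl⟩
  obtain ⟨y, hy, hyk⟩ := Nat.find_spec hex
  have hfr : ∀ j, |x j| = 1 → y j = x j := by
    intro j hj
    have := hy.froz j
    rw [hxs] at this
    exact this hj
  refine ⟨y, hy, hfr, ?_⟩
  by_contra hcon
  push Not at hcon
  have hsub : H167FK.Sys.alive y ⊆ H167FK.Sys.alive x := by
    intro j hj
    by_contra hjx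
    have h1 := H167FK.Sys.abs_eq_one hx.box hjx
    unfold H167FK.Sys.alive at hj
    rw [Finset.mem_filter, hfr j h1, h1] at hj
    exact lt_irrefl _ hj.2
  have hn : 0 < (H167FK.Sys.alive y).card := by
    have : (0 : ℝ) < (H167FK.Sys.alive y).card := by linarith
    exact_mod_cast this
  obtain ⟨z, hz, hzc⟩ := P.step y hy (H167FK.Sys.alive y) hn (Finset.Subset.refl _)
    (fun i _ _ v hv _ => hv) (by linarith)
    (fun w hw hf => hgood _ w hsub hcon hw hf) (fun i hi => hW _ hsub i hi)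
  exact Nat.find_min hex (m := (H167FK.Sys.alive z).card) (by rw [← hyk]; exact hzc) ⟨z, hz, rfl⟩

end Sys

theorem hp_ge (p : ℕ) : 100 ≤ hp p := by
  unfold hp
  have h1 : (1 : ℝ) ≤ Real.sqrt (2 ^ p) := by
    rw [Real.one_le_sqrt]
    exact one_le_pow₀ (by norm_num)
  have h2 : (0 : ℝ) ≤ p := Nat.cast_nonneg p
  nlinarith

theorem hp_sq (p : ℕ) : hp p ^ 2 = 10000 * ((p : ℝ) + 1) ^ 2 * 2 ^ p := by
  unfold hp
  have h1 : Real.sqrt ((2 : ℝ) ^ p) ^ 2 = 2 ^ p := Real.sq_sqrt (by positivity)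
  calc (100 * ((p : ℝ) + 1) * Real.sqrt (2 ^ p)) ^ 2
      = 10000 * ((p : ℝ) + 1) ^ 2 * Real.sqrt (2 ^ p) ^ 2 := by ring
    _ = _ := by rw [h1]

/-- Global data. -/
structure Ctx (d n : ℕ) where
  a : Fin d → Fin n → ℝ
  col : ∀ j, ∑ i, a i j ^ 2 ≤ 1
  x0 : Fin n → ℝ
  L : ℕ
  Pm : ℕ
  hPL : Pm ≤ L
  hsc : ∀ i : Fin d, scl i < Pm
  hPm : 0 < Pm
  hL : ∀ i v q, q < Pm → a i v ≠ 0 → θk 1 (hp q) L < |a i v|

variable {d n : ℕ}

/-- The level of row `i` at time `T` (level `0` for frozen rows). -/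
def lv (T : ℕ) (i : Fin d) : ℕ := if T < scl i then lvl (scl i) T else 0

/-- The weight of the tests of level `q` at time `T`. -/
noncomputable def rho (T q : ℕ) : ℝ := (1 / 2) ^ (q + 2) * (1 / 8) ^ (2 ^ q - 1 - T % 2 ^ q)

theorem rho_pos (T q : ℕ) : 0 < rho T q := by unfold rho; positivity

/-- Data of a window: base points of the levels, starting point, starting energy levels. -/
structure Dat (C : Ctx d n) (T : ℕ) where
  z : ℕ → Fin n → ℝ
  hz : ∀ q j, |z q j| ≤ 1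
  xs : Fin n → ℝ
  l0 : Fin d → ℕ
  hl0 : ∀ i, T < scl i → l0 i = 0 ∨
    16 ^ l0 i * ∑ v, (if |z (lv T i) v| < 1 then C.a i v else 0) ^ 2 ≤ 10
  hl0L : ∀ i, T < scl i → l0 i ≤ C.L

theorem Ctx.a1 (C : Ctx d n) (i : Fin d) (j : Fin n) : |C.a i j| ≤ 1 := by
  have h1 := C.col j
  have h2 := Finset.single_le_sum (f := fun i => C.a i j ^ 2) (fun i _ => sq_nonneg _)
    (Finset.mem_univ i)
  have h3 : C.a i j ^ 2 ≤ 1 := h2.trans h1
  rwa [← sq_abs, sq_le_one_iff₀ (abs_nonneg _)] at h3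

theorem lvl_le (l T : ℕ) : lvl l T ≤ l := Nat.findGreatest_le _

theorem lv_lt (C : Ctx d n) (T : ℕ) (i : Fin d) : lv T i < C.Pm := by
  unfold lv
  split_ifs
  · exact (lvl_le _ _).trans_lt (C.hsc i)
  · exact C.hPm

namespace Dat

variable {C : Ctx d n} {T : ℕ} (D : Dat C T)

/-- Restricted entries. -/
noncomputable def ar (i : Fin d) (v : Fin n) : ℝ := if |D.z (lv T i) v| < 1 then C.a i v else 0

/-- Parameter of a row. -/
noncomputable def hh (_ : Dat C T) (i : Fin d) : ℝ := hp (lv T i)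

theorem hh_ge (i : Fin d) : 30 ≤ D.hh i := by
  have := hp_ge (lv T i)
  unfold hh
  linarith

theorem ar_abs (i : Fin d) (v : Fin n) : |D.ar i v| ≤ |C.a i v| := by
  unfold ar
  split_ifs
  · exact le_rfl
  · rw [abs_zero]; exact abs_nonneg _

theorem ar_sq (i : Fin d) (v : Fin n) : D.ar i v ^ 2 ≤ C.a i v ^ 2 := by
  rw [← sq_abs, ← sq_abs (C.a i v)]
  exact pow_le_pow_left₀ (abs_nonneg _) (D.ar_abs i v) 2

/-- The system of a window. -/
noncomputable def sys : Sys (Fin d) (Fin n) (ℕ × Fin n) where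
  a := D.ar
  I0 := Finset.univ.filter (fun i => scl i ≤ T)
  I1 := Finset.univ.filter (fun i => T < scl i)
  t := 1
  g0 := 0
  ht := le_rfl
  hg0 := le_rfl
  a1 := fun i j => (D.ar_abs i j).trans (C.a1 i j)
  col := fun j => (Finset.sum_le_sum fun i _ => D.ar_sq i j).trans (C.col j)
  x0 := fun i => D.z (lv T i)
  hx0 := fun i j => D.hz _ j
  xs := D.xs
  θ := fun i => θk 1 (D.hh i)
  D := fun i => dk 1 (D.hh i)
  hθ0 := fun i => θk_pos le_rfl (D.hh_ge i)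
  hθa := fun i => θk_anti le_rfl (D.hh_ge i)
  Yl := fun i => yk 1 (D.hh i)
  hYl := fun i => yk_ge
  lam := fun i => lk 1 (D.hh i)
  hlam := fun i => lk_pos le_rfl
  Rb := fun i => rk 1 (D.hh i)
  hRb := fun i k => by unfold rk; positivity
  g := fun k => exp (-Gk k)
  hg := fun i k => le_of_eq (by rw [gap le_rfl])
  hg0' := fun k => exp_pos _
  hθl := fun i => lam_small le_rfl (D.hh_ge i)
  hD0 := fun i => dk_nonneg le_rfl (D.hh_ge i)
  hθD := fun i => dk_spec le_rfl (D.hh_ge i)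
  l0 := D.l0
  hl0 := fun i hi => by
    rcases D.hl0 i (Finset.mem_filter.mp hi).2 with h | h
    · exact Or.inl h
    · right
      rw [mul_one]
      exact h
  L := C.L
  hl0L := fun i hi => D.hl0L i (Finset.mem_filter.mp hi).2
  hL := fun i v h => by
    have h1 : D.ar i v = C.a i v := by
      unfold ar at h ⊢
      split_ifs at h ⊢ with h2
      · rfl
      · exact absurd rfl h
    rw [h1] at h ⊢
    exact C.hL i v _ (lv_lt C T i) h
  S := (Finset.range C.Pm ×ˢ Finset.univ).filter (fun τ => |D.z τ.1 τ.2| < 1)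
  wt := fun τ => rho T τ.1
  hwt := fun τ _ => rho_pos T τ.1
  b := fun τ i l => if lv T i = τ.1 then
    (if |D.ar i τ.2| ≤ θk 1 (D.hh i) l then D.ar i τ.2 else 0) ^ 2 / θk 1 (D.hh i) l ^ 2 else 0
  hb0 := fun τ _ i l => by
    split_ifs <;> positivity
  hb1 := fun τ _ i l => by
    have h1 := θk_pos (t := 1) le_rfl (D.hh_ge i) l
    split_ifs with h2 h3
    · rw [div_le_one (by positivity), ← sq_abs]
      exact pow_le_pow_left₀ (abs_nonneg _) h3 2
    · rw [div_le_one (by positivity), zero_pow two_ne_zero]; positivity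
    · exact zero_le_one
  w := fun i => wk 1 (D.hh i)
  hw := fun i => wk_pos le_rfl (D.hh_ge i)
  N := 64 * 2 ^ (T + 1)

theorem b_eq (q : ℕ) (j : Fin n) (i : Fin d) (l : ℕ) :
    D.sys.b (q, j) i l = if lv T i = q then D.sys.sm l i j ^ 2 / θk 1 (D.hh i) l ^ 2 else 0 := by
  rfl

end Dat

/-- GOOD: the estimate for a step in a window. -/
def S_GOOD : Prop := ∀ (d n : ℕ) (C : Ctx d n) (T : ℕ) (D : Dat C T) (F : Finset (Fin n))
  (y : Fin n → ℝ), (64 : ℝ) * 2 ^ T < F.card → (∀ q, ∀ v ∈ F, |D.z q v| < 1) →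
  (∀ j, |y j| ≤ 1) → D.sys.f F y ≤ 2 * D.sys.N → D.sys.Good F y

/-- BUD: the budget of a row. -/
def S_BUD : Prop := ∀ (d n : ℕ) (C : Ctx d n) (T : ℕ) (D : Dat C T) (i : Fin d), T < scl i →
  D.sys.Bd D.sys.L i ≤ bd (lv T i) * (1 / 2) ^ D.l0 i

end K19Kom
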