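import Pool.Agent.K1H19.Kom.Stm

/-!
# From exponential moments to weighted simultaneous bounds
-/

namespace K19Kom

open Finset Real

/-- Inversion of the growth function. -/
theorem invert (c : ℝ) (hc : 0 < c) (K : ℝ) (hK : 0 < K) : ∃ C : ℝ, 0 < C ∧
    ∀ (x μ : ℝ), 0 < μ → μ ≤ 1 → μ * Psi c x ≤ K →
      |x| ≤ C * (1 + log (1 / μ)) ^ (1 / 4 : ℝ) * (1 + log (1 + log (1 / μ))) ^ (1 / 2 : ℝ) := by
  -- constants
  set A : ℝ := (1 + |log K|) / c with hA
  have hA0 : 0 < A := by positivity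
  -- crude bound X ≤ B * L
  set B : ℝ := 1 + 4 * A with hB
  have hB1 : 1 ≤ B := by linarith
  set G : ℝ := 1 + log (1 + B) with hG
  have hlogB : 0 ≤ log (1 + B) := Real.log_nonneg (by linarith)
  have hG1 : 1 ≤ G := by linarith
  refine ⟨A ^ (1 / 4 : ℝ) * G ^ (1 / 2 : ℝ), by positivity, ?_⟩
  intro x μ hμ0 hμ1 hx
  set L : ℝ := 1 + log (1 / μ) with hL
  have hlogμ : 0 ≤ log (1 / μ) := Real.log_nonneg (by rw [le_div_iff₀ hμ0]; linarith)
  have hL1 : 1 ≤ L := by linarith
  set X : ℝ := |x| with hX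
  have hX0 : 0 ≤ X := abs_nonneg x
  set Y : ℝ := 1 + log (1 + X) with hY
  have hlogX : 0 ≤ log (1 + X) := Real.log_nonneg (by linarith)
  have hY1 : 1 ≤ Y := by linarith
  -- main inequality
  have h1 : c * (X ^ 4 / Y ^ 2) ≤ log K + log (1 / μ) := by
    have h2 : Psi c x ≤ K / μ := by rw [le_div_iff₀ hμ0]; linarith
    have h3 : Psi c x = exp (c * (X ^ 4 / Y ^ 2)) := by
      unfold Psi
      have : x ^ 4 = X ^ 4 := by
        rw [hX]
        have : |x| ^ 4 = (|x| ^ 2) ^ 2 := by ring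
        rw [this, sq_abs]; ring
      rw [this]
    rw [h3] at h2
    have h4 : c * (X ^ 4 / Y ^ 2) ≤ log (K / μ) := by
      rw [Real.le_log_iff_exp_le (by positivity)]; exact h2
    rw [Real.log_div hK.ne' hμ0.ne'] at h4
    rw [one_div, Real.log_inv]
    linarith
  have h2 : X ^ 4 / Y ^ 2 ≤ A * L := by
    have h3 : c * (X ^ 4 / Y ^ 2) ≤ (1 + |log K|) * L := by
      have h4 := le_abs_self (log K)
      have h5 : 0 ≤ |log K| := abs_nonneg _
      nlinarith
    have h4 : A * L = (1 + |log K|) * L / c := by rw [hA]; ring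
    rw [h4, le_div_iff₀ hc]
    linarith
  have hY2 : 0 < Y ^ 2 := by positivity
  have h3 : X ^ 4 ≤ A * L * Y ^ 2 := by rwa [div_le_iff₀ hY2] at h2
  -- crude bound
  have h4 : X ≤ B * L := by
    have h5 : Y ^ 2 ≤ 4 * (1 + X) := by
      have h6 : log (1 + X) ≤ 2 * (Real.sqrt (1 + X) - 1) := by
        have h7 : log (1 + X) = 2 * log (Real.sqrt (1 + X)) := by
          rw [Real.log_sqrt (by linarith)]; ring
        rw [h7]
        have := Real.log_le_sub_one_of_pos (Real.sqrt_pos.mpr (by linarith : 0 < 1 + X))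
        linarith
      have h8 : Y ≤ 2 * Real.sqrt (1 + X) := by
        have : 1 ≤ Real.sqrt (1 + X) := Real.one_le_sqrt.mpr (by linarith)
        linarith
      calc Y ^ 2 ≤ (2 * Real.sqrt (1 + X)) ^ 2 := pow_le_pow_left₀ (by linarith) h8 2
        _ = 4 * Real.sqrt (1 + X) ^ 2 := by ring
        _ = 4 * (1 + X) := by rw [Real.sq_sqrt (by linarith)]
    by_contra hcon
    push Not at hcon
    have h6 : 1 < X := lt_of_le_of_lt (by nlinarith) hcon
    have h7 : X ^ 4 ≤ A * L * (4 * (1 + X)) := h3.trans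
      (mul_le_mul_of_nonneg_left h5 (by positivity))
    have h8 : A * L * (4 * (1 + X)) ≤ A * L * (8 * X) :=
      mul_le_mul_of_nonneg_left (by linarith) (by positivity)
    have h9 : X ^ 3 ≤ 8 * A * L := by
      have : X * X ^ 3 ≤ X * (8 * A * L) := by nlinarith
      exact le_of_mul_le_mul_left this (by linarith)
    have h10 : X * X ≤ X ^ 3 := by nlinarith [sq_nonneg X]
    have h11 : (B * L) * 1 < X * X := by nlinarith
    have h12 : X * X * 1 < X ^ 3 * 1 := by nlinarith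
    nlinarith
  -- logarithm
  have h5 : Y ≤ G * (1 + log (1 + log (1 / μ))) := by
    have h6 : 1 + X ≤ (1 + B) * (1 + log (1 / μ)) := by
      have : B * L = B + B * log (1 / μ) := by rw [hL]; ring
      nlinarith
    have h7 : log (1 + X) ≤ log (1 + B) + log (1 + log (1 / μ)) := by
      rw [← Real.log_mul (by positivity) (by positivity)]
      exact Real.log_le_log (by linarith) h6
    have h8 : 0 ≤ log (1 + log (1 / μ)) := Real.log_nonneg (by linarith)
    nlinarith
  have hll : 0 ≤ log (1 + log (1 / μ)) := Real.log_nonneg (by linarith)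
  set Z : ℝ := 1 + log (1 + log (1 / μ)) with hZ
  have hZ1 : 1 ≤ Z := by linarith
  have h6 : X ^ 4 ≤ A * L * (G * Z) ^ 2 :=
    h3.trans (mul_le_mul_of_nonneg_left (pow_le_pow_left₀ (by linarith) h5 2) (by positivity))
  have h7 : (A ^ (1 / 4 : ℝ) * G ^ (1 / 2 : ℝ) * L ^ (1 / 4 : ℝ) * Z ^ (1 / 2 : ℝ)) ^ 4
      = A * L * (G * Z) ^ 2 := by
    have e1 : ∀ u : ℝ, 0 ≤ u → (u ^ (1 / 4 : ℝ)) ^ 4 = u := fun u hu => by
      rw [← Real.rpow_natCast, ← Real.rpow_mul hu]; norm_num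
    have e2 : ∀ u : ℝ, 0 ≤ u → (u ^ (1 / 2 : ℝ)) ^ 4 = u ^ 2 := fun u hu => by
      rw [← Real.rpow_natCast, ← Real.rpow_mul hu, ← Real.rpow_natCast]; norm_num
    rw [mul_pow, mul_pow, mul_pow, e1 A hA0.le, e2 G (by linarith), e1 L (by linarith),
      e2 Z (by linarith)]
    ring
  rw [← h7] at h6
  exact le_of_pow_le_pow_left₀ (by norm_num) (by positivity) h6

end K19Kom
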